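import Mathlib

/-!
# Antichains in `{0, 1, 2} ^ 3`: every full antichain is, up to the permutations of the indices and of the
# factors, contained in one of three antichains
-/

set_option autoImplicit false

namespace Pool.Agent.H725.T3

/-- the number of a point -/
def enc (x y z : Fin 3) : ℕ := 9 * x.val + 3 * y.val + z.val

/-- comparison of points -/
def leq (p q : ℕ) : Bool :=
  Nat.ble (p / 9) (q / 9) && (Nat.ble (p / 3 % 3) (q / 3 % 3) && Nat.ble (p % 3) (q % 3))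

/-- different comparable points -/
def bad (p q : ℕ) : Bool := !(Nat.beq p q) && (leq p q || leq q p)

/-- the list meets all the nine planes -/
def fullB (s : List ℕ) : Bool :=
  [0, 1, 2].all (fun v => s.any fun p => Nat.beq (p / 9) v) &&
    ([0, 1, 2].all (fun v => s.any fun p => Nat.beq (p / 3 % 3) v) &&
      [0, 1, 2].all (fun v => s.any fun p => Nat.beq (p % 3) v))

/-- the list is not full or contained in one of the sets -/
def leaf (Ms : List ℕ) (s : List ℕ) : Bool :=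
  !(fullB s) || Ms.any fun M => s.all fun p => M.testBit p

/-- search through all antichains -/
def chk (Ms : List ℕ) : List ℕ → List ℕ → Bool
  | [], s => leaf Ms s
  | p :: t, s => chk Ms t s && (s.any (bad p) || chk Ms t (p :: s))

theorem chk_sound {Ms : List ℕ} {P : ℕ → Prop} (hP : ∀ p q, P p → P q → bad p q = false)
    (h1 : ∀ v ∈ [0, 1, 2], ∃ p, P p ∧ p / 9 = v) (h2 : ∀ v ∈ [0, 1, 2], ∃ p, P p ∧ p / 3 % 3 = v)
    (h3 : ∀ v ∈ [0, 1, 2], ∃ p, P p ∧ p % 3 = v) :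
    ∀ ps s : List ℕ, chk Ms ps s = true → (∀ p ∈ s, P p) → (∀ p, P p → p ∈ s ∨ p ∈ ps) →
      ∃ M ∈ Ms, ∀ p, P p → M.testBit p = true := by
  intro ps
  induction ps with
  | nil =>
    intro s hs hs1 hs2
    have hmem : ∀ p, P p → p ∈ s := fun p hp => (hs2 p hp).resolve_right (by simp)
    have hf : fullB s = true := by
      unfold fullB
      rw [Bool.and_eq_true, Bool.and_eq_true, List.all_eq_true, List.all_eq_true, List.all_eq_true]
      refine ⟨fun v hv => ?_, fun v hv => ?_, fun v hv => ?_⟩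
      · obtain ⟨p, hp, e⟩ := h1 v hv
        exact List.any_eq_true.2 ⟨p, hmem p hp, by
          show Nat.beq (p / 9) v = true
          rw [e]; exact Nat.beq_refl v⟩
      · obtain ⟨p, hp, e⟩ := h2 v hv
        exact List.any_eq_true.2 ⟨p, hmem p hp, by
          show Nat.beq (p / 3 % 3) v = true
          rw [e]; exact Nat.beq_refl v⟩
      · obtain ⟨p, hp, e⟩ := h3 v hv
        exact List.any_eq_true.2 ⟨p, hmem p hp, by
          show Nat.beq (p % 3) v = true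
          rw [e]; exact Nat.beq_refl v⟩
    rw [chk, leaf, hf, Bool.not_true, Bool.false_or, List.any_eq_true] at hs
    obtain ⟨M, hM, hs⟩ := hs
    exact ⟨M, hM, fun p hp => List.all_eq_true.1 hs p (hmem p hp)⟩
  | cons p t ih =>
    intro s hs hs1 hs2
    rw [chk, Bool.and_eq_true, Bool.or_eq_true] at hs
    by_cases hp : P p
    · have hb : ¬ s.any (bad p) = true := by
        rw [List.any_eq_true]
        rintro ⟨q, hq, hb⟩
        rw [hP p q hp (hs1 q hq)] at hb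
        exact absurd hb (by simp)
      refine ih (p :: s) (hs.2.resolve_left hb) ?_ ?_
      · intro q hq
        rcases List.mem_cons.1 hq with rfl | hq
        · exact hp
        · exact hs1 q hq
      · intro q hq
        rcases hs2 q hq with h | h
        · exact Or.inl (List.mem_cons_of_mem _ h)
        · rcases List.mem_cons.1 h with rfl | h
          · exact Or.inl List.mem_cons_self
          · exact Or.inr h
    · refine ih s hs.1 hs1 ?_
      intro q hq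
      rcases hs2 q hq with h | h
      · exact Or.inl h
      · rcases List.mem_cons.1 h with rfl | h
        · exact absurd hq hp
        · exact Or.inr h

/-- the maximal antichains: set, class, permutation of the factors, permutations of the indices -/
def table : List (ℕ × ℕ × ℕ × ℕ × ℕ × ℕ) := [
  (16778260, 2, 0, 2, 2, 0),
  (267348, 1, 0, 0, 0, 5),
  (2098260, 2, 0, 0, 3, 1),
  (528468, 2, 0, 0, 4, 2),
  (295956, 2, 2, 3, 0, 1),
  (2130964, 2, 4, 4, 1, 2),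
  (2654228, 2, 0, 3, 2, 0),
  (270404, 2, 0, 3, 3, 2),
  (2629700, 2, 0, 3, 1, 4),
  (17309828, 0, 0, 1, 2, 0),
  (267396, 2, 2, 3, 1, 1),
  (528516, 2, 0, 3, 3, 0),
  (303236, 2, 2, 1, 3, 4),
  (2131076, 2, 0, 2, 3, 0),
  (2662532, 2, 4, 5, 0, 2),
  (4227204, 0, 0, 0, 2, 0),
  (2686980, 0, 0, 0, 2, 2),
  (21037060, 2, 0, 4, 4, 5),
  (329760, 0, 0, 0, 0, 2),
  (17369120, 2, 0, 4, 1, 5),
  (2689056, 2, 2, 3, 0, 2),
  (21039136, 2, 4, 2, 3, 4),
  (22085664, 2, 0, 3, 2, 4),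
  (3211296, 2, 0, 1, 0, 4),
  (267360, 2, 4, 3, 1, 1),
  (2098272, 2, 0, 3, 5, 2),
  (272480, 2, 4, 1, 4, 3),
  (530528, 2, 0, 2, 5, 2),
  (2631776, 2, 2, 5, 2, 0),
  (4196448, 0, 0, 0, 0, 2),
  (3154016, 0, 0, 1, 0, 2),
  (16778400, 0, 0, 0, 1, 1),
  (267424, 2, 0, 2, 4, 1),
  (296096, 2, 2, 5, 3, 3),
  (2131104, 2, 2, 1, 5, 4),
  (268448, 2, 2, 5, 2, 2),
  (530592, 2, 4, 1, 4, 5),
  (305312, 2, 0, 2, 5, 0),
  (17311904, 2, 4, 0, 5, 4),
  (2664608, 0, 0, 0, 0, 0),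
  (20973728, 2, 0, 1, 4, 5),
  (4229280, 2, 0, 0, 3, 2),
  (1052832, 0, 0, 0, 1, 1),
  (17834144, 2, 0, 1, 3, 2),
  (3186848, 2, 2, 0, 4, 5),
  (5275808, 2, 0, 1, 0, 1),
  (267520, 2, 0, 5, 2, 3),
  (2131200, 0, 0, 0, 0, 1),
  (305408, 0, 0, 0, 1, 2),
  (17312000, 2, 2, 3, 1, 2),
  (530688, 0, 0, 0, 1, 0),
  (2689280, 2, 2, 0, 1, 1),
  (2664704, 2, 0, 4, 0, 5),
  (21039360, 2, 2, 1, 5, 3),
  (4229376, 2, 0, 0, 1, 4),
  (344320, 2, 0, 0, 4, 1),
  (17383680, 2, 2, 1, 3, 3),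
  (2703616, 2, 0, 4, 2, 3),
  (22102272, 1, 0, 5, 5, 0),
  (3227904, 2, 4, 1, 3, 3),
  (2670848, 2, 2, 0, 4, 4),
  (5292288, 2, 4, 1, 3, 5),
  (17834240, 2, 0, 1, 1, 4),
  (3186944, 2, 4, 3, 2, 1),
  (268368, 2, 4, 3, 1, 0),
  (296976, 2, 0, 5, 3, 2),
  (17303568, 0, 0, 0, 1, 0),
  (530512, 2, 2, 4, 2, 1),
  (2623568, 2, 0, 3, 5, 3),
  (2656272, 2, 0, 5, 1, 4),
  (2637888, 0, 0, 0, 2, 2),
  (5259328, 2, 0, 4, 0, 1),
  (17318016, 2, 0, 1, 1, 5),
  (22036608, 2, 0, 3, 1, 3),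
  (311424, 0, 0, 0, 1, 3),
  (2670720, 2, 4, 3, 2, 0),
  (3195008, 2, 0, 4, 0, 4),
  (5292160, 2, 2, 2, 4, 3),
  (1052752, 2, 0, 2, 5, 3),
  (3178512, 0, 0, 0, 0, 1)]

/-- the maximal antichains -/
def Ms0 : List ℕ := table.map fun e => e.1

theorem chk_all : chk Ms0 (List.range 27) [] = true := by
  decide +kernel

/-- the permutations of the indices -/
def pf (k : ℕ) (x : Fin 3) : Fin 3 :=
  match k with
  | 0 => x
  | 1 => ![0, 2, 1] x
  | 2 => ![1, 0, 2] x
  | 3 => ![1, 2, 0] x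
  | 4 => ![2, 0, 1] x
  | _ => ![2, 1, 0] x

/-- the three antichains -/
def cl (c : ℕ) (x y z : Fin 3) : Bool :=
  match c with
  | 0 => Nat.beq (x.val + y.val + z.val) 3
  | 1 => Nat.beq (x.val + y.val) z.val
  | _ => Nat.beq (x.val + y.val) z.val && !(Nat.beq x.val 2) ||
      Nat.beq x.val 2 && (Nat.beq y.val 2 && Nat.beq z.val 0)

/-- permutation of the factors -/
def fac (π : ℕ) (c : ℕ) (x y z : Fin 3) : Bool :=
  match π with
  | 0 => cl c x y z
  | 2 => cl c y x z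
  | _ => cl c z x y

theorem table_ok : ∀ e ∈ table, ∀ x y z : Fin 3, e.1.testBit (enc x y z) = true →
    fac e.2.2.1 e.2.1 (pf e.2.2.2.1 x) (pf e.2.2.2.2.1 y) (pf e.2.2.2.2.2 z) = true := by
  decide +kernel

end Pool.Agent.H725.T3
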