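import Pool.Agent.H684.FF.Supp
import Pool.Agent.H725.T3.Comb

/-!
# Tensors of size `3 × 3 × 3` with support in one of the three antichains
-/

set_option autoImplicit false

namespace Pool.Agent.H725.T3

open Finset Pool.Agent.W329.AR Pool.Agent.H684.FF

/-! ### permutation of the factors -/

theorem arank_le_of_rk {T T' : Fin 3 → Fin 3 → Fin 3 → ℂ}
    (h : ∀ N r, Rk (kpow T' N) r → Rk (kpow T N) r) : arank T ≤ arank T' := by
  refine le_of_forall_gt fun ρ hρ => ?_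
  have hρ0 : 0 < ρ := lt_of_le_of_lt (arank_nonneg _) hρ
  obtain ⟨N, r, hN, hr, h1⟩ := exists_of_arank_lt T' hρ
  obtain ⟨τ, t1, t2, t3⟩ := exists_between_pow hN hρ0 hr
  exact lt_of_le_of_lt (arank_le T hN (h N r h1) t1.le t3.le) t2

theorem arank_rot (T : Fin 3 → Fin 3 → Fin 3 → ℂ) : arank T ≤ arank (fun z x y => T x y z) :=
  arank_le_of_rk fun _ _ h => h.rot

theorem arank_swap (T : Fin 3 → Fin 3 → Fin 3 → ℂ) : arank T ≤ arank (fun y x z => T x y z) := by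
  refine arank_le_of_rk fun N r h => ?_
  obtain ⟨u, v, w, h⟩ := h
  refine ⟨v, u, w, fun a b c => ?_⟩
  have h1 := h b a c
  refine Eq.trans ?_ (h1.trans (Finset.sum_congr rfl fun l _ => by ring))
  rfl

/-! ### normal forms -/

theorem arank_scale {T T' : Fin 3 → Fin 3 → Fin 3 → ℂ} (a b c : Fin 3 → ℂ)
    (ha : ∀ x, a x ≠ 0) (hb : ∀ x, b x ≠ 0) (hc : ∀ x, c x ≠ 0)
    (h : ∀ x y z, T' x y z = a x * b y * c z * T x y z) : arank T ≤ arank T' := by
  refine arank_le_of_rst ⟨fun x i => if x = i then (a x)⁻¹ else 0,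
    fun y i => if y = i then (b y)⁻¹ else 0, fun z i => if z = i then (c z)⁻¹ else 0, ?_⟩
  intro x y z
  simp only [ite_mul, zero_mul, mul_ite, mul_zero, Finset.sum_ite_eq, Finset.mem_univ, if_true]
  rw [h]
  have := ha x
  have := hb y
  have := hc z
  field_simp

theorem worst_le_of_generic (S : Fin 3 → Fin 3 → Fin 3 → Prop) {β : ℝ}
    (h : ∀ T : Fin 3 → Fin 3 → Fin 3 → ℂ, SuppIn S T → (∀ x y z, S x y z → T x y z ≠ 0) →
      arank T ≤ β) {T : Fin 3 → Fin 3 → Fin 3 → ℂ} (hT : SuppIn S T) : arank T ≤ β := by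
  obtain ⟨c, hc⟩ := exists_generic (Pos S)
  refine (le_worstS hT).trans ?_
  rw [worstS_eq, worst_eq _ hc]
  apply h
  · intro x y z hn
    rw [spec_fam, dif_neg hn]
  · intro x y z hn
    rw [spec_fam, dif_pos hn]
    exact hc.ne_zero _

/-- the tensor with the support `{(x, y, z) : x + y + z = 3}` (indices `0`, `1`, `2`), in which the
coefficient of `(2, 1, 0)` is `μ` and the other coefficients are one -/
noncomputable def TA (μ : ℂ) : Fin 3 → Fin 3 → Fin 3 → ℂ := fun x y z =>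
  if x.val + y.val + z.val = 3 then (if x = 2 ∧ y = 1 ∧ z = 0 then μ else 1) else 0

/-- the tensor with the support `{(0,0,0), (0,1,1), (0,2,2), (1,0,1), (1,1,2), (2,2,0)}` and with
the coefficients one -/
noncomputable def TC : Fin 3 → Fin 3 → Fin 3 → ℂ := fun x y z =>
  if (x.val + y.val = z.val ∧ x ≠ 2) ∨ (x = 2 ∧ y = 2 ∧ z = 0) then 1 else 0

/-- a family which contains the structure tensor of `ℂ[X] / (X ^ 3)` -/
noncomputable def TB (t : ℂ) : Fin 3 → Fin 3 → Fin 3 → ℂ := fun x y z =>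
  if x.val + y.val = z.val then 1 else if x.val + y.val = z.val + 3 then t else 0

/-- the sets as predicates -/
def Cl (c : ℕ) (x y z : Fin 3) : Prop := cl c x y z = true

theorem nf_A {T : Fin 3 → Fin 3 → Fin 3 → ℂ} (hT : SuppIn (Cl 0) T)
    (h0 : ∀ x y z, Cl 0 x y z → T x y z ≠ 0) : ∃ μ : ℂ, arank T ≤ arank (TA μ) := by
  have h111 : T 1 1 1 ≠ 0 := h0 _ _ _ rfl
  have h012 : T 0 1 2 ≠ 0 := h0 _ _ _ rfl
  have h021 : T 0 2 1 ≠ 0 := h0 _ _ _ rfl
  have h102 : T 1 0 2 ≠ 0 := h0 _ _ _ rfl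
  have h120 : T 1 2 0 ≠ 0 := h0 _ _ _ rfl
  have h201 : T 2 0 1 ≠ 0 := h0 _ _ _ rfl
  have h210 : T 2 1 0 ≠ 0 := h0 _ _ _ rfl
  refine ⟨T 0 2 1 * T 2 1 0 * T 1 0 2 / (T 0 1 2 * T 1 2 0 * T 2 0 1), ?_⟩
  refine arank_scale ![1, 1, T 1 0 2 * T 1 1 1 / (T 0 1 2 * T 2 0 1)]
    ![T 0 1 2 / T 1 0 2, 1, T 1 1 1 / T 0 2 1]
    ![T 0 2 1 / (T 1 1 1 * T 1 2 0), 1 / T 1 1 1, 1 / T 0 1 2] ?_ ?_ ?_ ?_
  · intro x
    fin_cases x <;> simp [*]
  · intro x
    fin_cases x <;> simp [*]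
  · intro x
    fin_cases x <;> simp [*]
  · intro x y z
    by_cases h : Cl 0 x y z
    · fin_cases x <;> fin_cases y <;> fin_cases z <;>
        first
          | exact absurd h (by unfold Cl; decide)
          | (simp [TA]; try field_simp)
    · rw [hT x y z h]
      have h1 : ¬ (x.val + y.val + z.val = 3) := fun he => h (by
        unfold Cl cl
        simp [he])
      simp [TA, h1]

theorem nf_C {T : Fin 3 → Fin 3 → Fin 3 → ℂ} (hT : SuppIn (Cl 2) T)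
    (h0 : ∀ x y z, Cl 2 x y z → T x y z ≠ 0) : arank T ≤ arank TC := by
  have h000 : T 0 0 0 ≠ 0 := h0 _ _ _ rfl
  have h011 : T 0 1 1 ≠ 0 := h0 _ _ _ rfl
  have h022 : T 0 2 2 ≠ 0 := h0 _ _ _ rfl
  have h101 : T 1 0 1 ≠ 0 := h0 _ _ _ rfl
  have h112 : T 1 1 2 ≠ 0 := h0 _ _ _ rfl
  have h220 : T 2 2 0 ≠ 0 := h0 _ _ _ rfl
  refine arank_scale ![1, 1, T 0 1 1 * T 0 2 2 * T 0 0 0 / (T 1 0 1 * T 1 1 2 * T 2 2 0)]
    ![1, T 1 0 1 / T 0 1 1, T 1 0 1 * T 1 1 2 / (T 0 1 1 * T 0 2 2)]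
    ![1 / T 0 0 0, 1 / T 1 0 1, T 0 1 1 / (T 1 0 1 * T 1 1 2)] ?_ ?_ ?_ ?_
  · intro x
    fin_cases x <;> simp [*]
  · intro x
    fin_cases x <;> simp [*]
  · intro x
    fin_cases x <;> simp [*]
  · intro x y z
    by_cases h : Cl 2 x y z
    · fin_cases x <;> fin_cases y <;> fin_cases z <;>
        first
          | exact absurd h (by unfold Cl; decide)
          | (simp [TC]; try field_simp)
    · rw [hT x y z h]
      have h1 : ¬ ((x.val + y.val = z.val ∧ x ≠ 2) ∨ (x = 2 ∧ y = 2 ∧ z = 0)) := by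
        revert h
        unfold Cl
        revert x y z
        decide
      simp only [TC, if_neg h1, mul_zero]

theorem nf_B {T : Fin 3 → Fin 3 → Fin 3 → ℂ} (hT : SuppIn (Cl 1) T)
    (h0 : ∀ x y z, Cl 1 x y z → T x y z ≠ 0) : arank T ≤ arank (TB 0) := by
  have h000 : T 0 0 0 ≠ 0 := h0 _ _ _ rfl
  have h011 : T 0 1 1 ≠ 0 := h0 _ _ _ rfl
  have h022 : T 0 2 2 ≠ 0 := h0 _ _ _ rfl
  have h101 : T 1 0 1 ≠ 0 := h0 _ _ _ rfl
  have h112 : T 1 1 2 ≠ 0 := h0 _ _ _ rfl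
  have h202 : T 2 0 2 ≠ 0 := h0 _ _ _ rfl
  refine arank_scale ![1, 1, T 1 0 1 * T 1 1 2 / (T 0 1 1 * T 2 0 2)]
    ![1, T 1 0 1 / T 0 1 1, T 1 0 1 * T 1 1 2 / (T 0 1 1 * T 0 2 2)]
    ![1 / T 0 0 0, 1 / T 1 0 1, T 0 1 1 / (T 1 0 1 * T 1 1 2)] ?_ ?_ ?_ ?_
  · intro x
    fin_cases x <;> simp [*]
  · intro x
    fin_cases x <;> simp [*]
  · intro x
    fin_cases x <;> simp [*]
  · intro x y z
    by_cases h : Cl 1 x y z
    · fin_cases x <;> fin_cases y <;> fin_cases z <;>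
        first
          | exact absurd h (by unfold Cl; decide)
          | (simp [TB]; try field_simp)
    · rw [hT x y z h]
      have h1 : ¬ (x.val + y.val = z.val) := fun he => h (by
        unfold Cl cl
        simp [he])
      simp [TB, h1]

/-! ### the tensor `TB` -/

theorem Rk_TB {s : ℂ} (hs : s ≠ 0) : Rk (TB (s ^ 3)) 3 := by
  obtain ⟨ω, hω⟩ : ∃ ω : ℂ, ω ^ 2 + ω + 1 = 0 := by
    have h := IsPrimitiveRoot.geom_sum_eq_zero (Complex.isPrimitiveRoot_exp 3 (by norm_num))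
      (by norm_num)
    simp only [Finset.sum_range_succ, Finset.sum_range_zero, pow_zero, pow_one, zero_add] at h
    exact ⟨_, by rw [← h]; ring⟩
  have hω3 : ω ^ 3 = 1 := by linear_combination (ω - 1) * hω
  have key : ∀ n : ℕ, n < 9 → 1 + ω ^ n + (ω ^ 2) ^ n = if n % 3 = 0 then 3 else 0 := by
    intro n hn
    interval_cases n
    · norm_num
    · simp only [pow_one]
      norm_num
      linear_combination hω
    · norm_num
      linear_combination hω + ω * hω3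
    · norm_num
      linear_combination (ω ^ 3 + 2) * hω3
    · norm_num
      linear_combination hω + (ω + ω ^ 2 * (ω ^ 3 + 1)) * hω3
    · norm_num
      linear_combination hω + (ω ^ 2 + ω * (ω ^ 6 + ω ^ 3 + 1)) * hω3
    · norm_num
      linear_combination ((ω ^ 3 + 1) + (ω ^ 9 + ω ^ 6 + ω ^ 3 + 1)) * hω3
    · norm_num
      linear_combination hω + (ω * (ω ^ 3 + 1) + ω ^ 2 * (ω ^ 9 + ω ^ 6 + ω ^ 3 + 1)) * hω3
    · norm_num
      linear_combination hω + (ω ^ 2 * (ω ^ 3 + 1) +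
        ω * (ω ^ 12 + ω ^ 9 + ω ^ 6 + ω ^ 3 + 1)) * hω3
  refine ⟨fun l x => (s * ω ^ l.val) ^ x.val, fun l x => (s * ω ^ l.val) ^ x.val,
    fun l z => ((ω ^ l.val) ^ 2) ^ z.val / (3 * s ^ z.val), ?_⟩
  intro x y z
  rw [Fin.sum_univ_three]
  have h1 : (s * ω ^ (0 : Fin 3).val) ^ x.val * (s * ω ^ (0 : Fin 3).val) ^ y.val *
        (((ω ^ (0 : Fin 3).val) ^ 2) ^ z.val / (3 * s ^ z.val)) +
      (s * ω ^ (1 : Fin 3).val) ^ x.val * (s * ω ^ (1 : Fin 3).val) ^ y.val *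
        (((ω ^ (1 : Fin 3).val) ^ 2) ^ z.val / (3 * s ^ z.val)) +
      (s * ω ^ (2 : Fin 3).val) ^ x.val * (s * ω ^ (2 : Fin 3).val) ^ y.val *
        (((ω ^ (2 : Fin 3).val) ^ 2) ^ z.val / (3 * s ^ z.val)) =
      s ^ (x.val + y.val) / (3 * s ^ z.val) * (1 + ω ^ (x.val + y.val + 2 * z.val) +
        (ω ^ 2) ^ (x.val + y.val + 2 * z.val)) := by
    have e0 : (0 : Fin 3).val = 0 := rfl
    have e1 : (1 : Fin 3).val = 1 := rfl
    have e2 : (2 : Fin 3).val = 2 := rfl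
    rw [e0, e1, e2]
    simp only [pow_zero, mul_one, one_pow, pow_one, mul_pow, pow_add, pow_mul]
    ring
  refine Eq.trans ?_ h1.symm
  rw [key _ (by have := x.isLt; have := y.isLt; have := z.isLt; omega)]
  fin_cases x <;> fin_cases y <;> fin_cases z <;> simp [TB] <;> field_simp

end Pool.Agent.H725.T3
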