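import Pool.Agent.H725.T3.Perm

/-!
# Concise oblique tensors of size `3 × 3 × 3`
-/

set_option autoImplicit false

namespace Pool.Agent.H725.T3

open Finset Pool.Agent.W329.AR Pool.Agent.H684.FF

theorem exists_rank (f : Fin 3 → ℕ) (hf : Function.Injective f) :
    ∃ σ : Fin 3 → Fin 3, Function.Injective σ ∧ ∀ x y, σ x ≤ σ y → f x ≤ f y := by
  have hlt : ∀ x, (univ.filter (fun y => f y < f x)).card < 3 := by
    intro x
    have h1 : univ.filter (fun y => f y < f x) ⊂ (univ : Finset (Fin 3)) := by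
      refine Finset.ssubset_iff_subset_ne.2 ⟨Finset.subset_univ _, fun h => ?_⟩
      have h2 : x ∈ univ.filter (fun y => f y < f x) := by rw [h]; exact Finset.mem_univ x
      simp at h2
    have h3 := Finset.card_lt_card h1
    simpa using h3
  have hmon : ∀ x y, (univ.filter (fun z => f z < f x)).card ≤
      (univ.filter (fun z => f z < f y)).card → f x ≤ f y := by
    intro x y h
    by_contra hn
    rw [not_le] at hn
    have h1 : univ.filter (fun z => f z < f y) ⊂ univ.filter (fun z => f z < f x) := by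
      refine Finset.ssubset_iff_subset_ne.2 ⟨fun z hz => ?_, fun he => ?_⟩
      · rw [Finset.mem_filter] at hz ⊢
        exact ⟨hz.1, hz.2.trans hn⟩
      · have h2 : y ∈ univ.filter (fun z => f z < f x) :=
          Finset.mem_filter.2 ⟨Finset.mem_univ _, hn⟩
        rw [← he] at h2
        simp at h2
    exact absurd (Finset.card_lt_card h1) (not_lt.2 h)
  refine ⟨fun x => ⟨_, hlt x⟩, ?_, ?_⟩
  · intro x y h
    have h1 : (univ.filter (fun z => f z < f x)).card = (univ.filter (fun z => f z < f y)).card :=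
      congrArg Fin.val h
    exact hf (le_antisymm (hmon x y h1.le) (hmon y x h1.ge))
  · intro x y h
    exact hmon x y h

theorem leq_enc : ∀ x y z x' y' z' : Fin 3, leq (enc x y z) (enc x' y' z') = true →
    x ≤ x' ∧ y ≤ y' ∧ z ≤ z' := by
  decide +kernel

theorem enc_div : ∀ x y z : Fin 3, enc x y z / 9 = x.val ∧ enc x y z / 3 % 3 = y.val ∧
    enc x y z % 3 = z.val ∧ enc x y z < 27 := by
  decide

theorem table_c : ∀ e ∈ table, e.2.1 < 3 := by
  decide +kernel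

theorem bound_oblique {μ : ℂ} (hμ : Transcendental ℚ μ) {T : Fin 3 → Fin 3 → Fin 3 → ℂ}
    (hO : ObliqueS (Fin 3) (fun x y z => T x y z ≠ 0)) (hF : Full (fun x y z => T x y z ≠ 0)) :
    arank T ≤ bd μ := by
  obtain ⟨f, g, h, hf, hg, hh, H⟩ := hO
  obtain ⟨a, ha, ha'⟩ := exists_rank f hf
  obtain ⟨b, hb, hb'⟩ := exists_rank g hg
  obtain ⟨c, hc, hc'⟩ := exists_rank h hh
  have sa := Finite.injective_iff_surjective.1 ha
  have sb := Finite.injective_iff_surjective.1 hb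
  have sc := Finite.injective_iff_surjective.1 hc
  obtain ⟨P, hPdef⟩ : ∃ P : ℕ → Prop, P = fun p => ∃ x y z, T x y z ≠ 0 ∧
    p = enc (a x) (b y) (c z) := ⟨_, rfl⟩
  have hPiff : ∀ p, P p ↔ ∃ x y z, T x y z ≠ 0 ∧ p = enc (a x) (b y) (c z) := by
    intro p
    rw [hPdef]
  have hP1 : ∀ x y z, T x y z ≠ 0 → P (enc (a x) (b y) (c z)) := fun x y z hne =>
    (hPiff _).2 ⟨x, y, z, hne, rfl⟩
  have hbeq : ∀ n : ℕ, Nat.beq n n = true := Nat.beq_refl
  have key : ∃ M ∈ Ms0, ∀ p, P p → M.testBit p = true := by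
    refine chk_sound (Ms := Ms0) (P := P) ?_ ?_ ?_ ?_ (List.range 27) [] chk_all
      (by simp) ?_
    · intro p q hp hq
      obtain ⟨x, y, z, h1, rfl⟩ := (hPiff _).1 hp
      obtain ⟨x', y', z', h2, rfl⟩ := (hPiff _).1 hq
      by_contra hbad
      rw [Bool.not_eq_false, bad, Bool.and_eq_true, Bool.or_eq_true] at hbad
      rcases hbad.2 with h3 | h3
      · obtain ⟨e1, e2, e3⟩ := leq_enc _ _ _ _ _ _ h3
        obtain ⟨rfl, rfl, rfl⟩ := H _ _ _ _ _ _ h1 h2 (ha' _ _ e1) (hb' _ _ e2) (hc' _ _ e3)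
        have h4 := hbad.1
        rw [hbeq] at h4
        exact absurd h4 (by decide)
      · obtain ⟨e1, e2, e3⟩ := leq_enc _ _ _ _ _ _ h3
        obtain ⟨rfl, rfl, rfl⟩ := H _ _ _ _ _ _ h2 h1 (ha' _ _ e1) (hb' _ _ e2) (hc' _ _ e3)
        have h4 := hbad.1
        rw [hbeq] at h4
        exact absurd h4 (by decide)
    · intro v hv
      obtain ⟨w, hw⟩ : ∃ w : Fin 3, w.val = v := ⟨⟨v, by simp at hv; omega⟩, rfl⟩
      obtain ⟨x, hx⟩ := sa w
      obtain ⟨y, z, hne⟩ := hF.1 x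
      exact ⟨_, hP1 x y z hne, by rw [(enc_div _ _ _).1, hx, hw]⟩
    · intro v hv
      obtain ⟨w, hw⟩ : ∃ w : Fin 3, w.val = v := ⟨⟨v, by simp at hv; omega⟩, rfl⟩
      obtain ⟨y, hy⟩ := sb w
      obtain ⟨x, z, hne⟩ := hF.2.1 y
      exact ⟨_, hP1 x y z hne, by rw [(enc_div _ _ _).2.1, hy, hw]⟩
    · intro v hv
      obtain ⟨w, hw⟩ : ∃ w : Fin 3, w.val = v := ⟨⟨v, by simp at hv; omega⟩, rfl⟩
      obtain ⟨z, hz⟩ := sc w
      obtain ⟨x, y, hne⟩ := hF.2.2 z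
      exact ⟨_, hP1 x y z hne, by rw [(enc_div _ _ _).2.2.1, hz, hw]⟩
    · intro p hp
      obtain ⟨x, y, z, h1, rfl⟩ := (hPiff _).1 hp
      exact Or.inr (List.mem_range.2 (enc_div _ _ _).2.2.2)
  obtain ⟨M, hM, hM'⟩ := key
  obtain ⟨e, he, rfl⟩ := List.mem_map.1 (show M ∈ table.map fun e => e.1 from hM)
  refine arank_perm (S := fun x y z => fac e.2.2.1 e.2.1 x y z = true)
    (f := fun x => pf e.2.2.2.1 (a x)) (g := fun y => pf e.2.2.2.2.1 (b y))
    (h := fun z => pf e.2.2.2.2.2 (c z))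
    ((pf_inj _).comp ha) ((pf_inj _).comp hb) ((pf_inj _).comp hc)
    (fun T' hT' => base_fac hμ _ _ (table_c e he) hT') ?_
  intro x y z hn
  by_contra h0
  exact hn (table_ok e he (a x) (b y) (c z) (hM' _ (hP1 x y z h0)))

/-- **The bound.** -/
theorem bound {μ : ℂ} (hμ : Transcendental ℚ μ) {T : Fin 3 → Fin 3 → Fin 3 → ℂ} (hT : Conc T)
    (h : InBases (ObliqueS (Fin 3)) T) : arank T ≤ bd μ := by
  obtain ⟨A, B, C, hA, hB, hC, hQ⟩ := h
  have h1 : arank T ≤ arank (chg A B C T) :=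
    arank_le_of_rst ⟨(A⁻¹ : Matrix (Fin 3) (Fin 3) ℂ), (B⁻¹ : Matrix (Fin 3) (Fin 3) ℂ),
      (C⁻¹ : Matrix (Fin 3) (Fin 3) ℂ), fun a b c =>
        (congrFun (congrFun (congrFun (chg_inv hA hB hC T) a) b) c).symm⟩
  exact h1.trans (bound_oblique hμ hQ (full_of_conc hT hA hB hC))

theorem inBases_of {𝒬 : (Fin 3 → Fin 3 → Fin 3 → Prop) → Prop} {T : Fin 3 → Fin 3 → Fin 3 → ℂ}
    (h : 𝒬 (fun x y z => T x y z ≠ 0)) : InBases 𝒬 T := by
  refine ⟨1, 1, 1, by simp, by simp, by simp, ?_⟩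
  have h4 : (fun a b d => (∑ a', ∑ b', ∑ c', (1 : Matrix (Fin 3) (Fin 3) ℂ) a a' *
      (1 : Matrix (Fin 3) (Fin 3) ℂ) b b' * (1 : Matrix (Fin 3) (Fin 3) ℂ) d c' *
        T a' b' c') ≠ 0) = (fun a b d => T a b d ≠ 0) := by
    funext a b d
    simp [Matrix.one_apply, ite_mul, Finset.sum_ite_eq]
  rw [h4]
  exact h

theorem inBases_mono {T : Fin 3 → Fin 3 → Fin 3 → ℂ} (h : InBases (TightS (Fin 3)) T) :
    InBases (ObliqueS (Fin 3)) T := by
  obtain ⟨A, B, C, hA, hB, hC, hQ⟩ := h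
  exact ⟨A, B, C, hA, hB, hC, TightS.oblique hQ⟩

end Pool.Agent.H725.T3
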