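import Pool.Agent.H725.T3.Base

/-!
# Tensors of size `3 × 3 × 3` with support in an antichain
-/

set_option autoImplicit false

namespace Pool.Agent.H725.T3

open Finset Pool.Agent.W329.AR Pool.Agent.H684.FF

/-! ### the families -/

/-- the family `TA` -/
noncomputable def FA : Fin 3 → Fin 3 → Fin 3 → MvPolynomial Unit ℤ := fun x y z =>
  if x.val + y.val + z.val = 3 then
    (if x = 2 ∧ y = 1 ∧ z = 0 then MvPolynomial.X () else 1) else 0

theorem spec_FA (μ : ℂ) : spec FA (fun _ : Unit => μ) = TA μ := by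
  funext x y z
  unfold spec FA TA
  split_ifs <;> simp

/-- the family `TB` -/
noncomputable def FB : Fin 3 → Fin 3 → Fin 3 → MvPolynomial Unit ℤ := fun x y z =>
  if x.val + y.val = z.val then 1 else if x.val + y.val = z.val + 3 then MvPolynomial.X () else 0

theorem spec_FB (μ : ℂ) : spec FB (fun _ : Unit => μ) = TB μ := by
  funext x y z
  unfold spec FB TB
  split_ifs <;> simp

theorem algInd_of {μ : ℂ} (h : Transcendental ℚ μ) :
    AlgebraicIndependent ℤ (fun _ : Unit => μ) := by
  rw [algebraicIndependent_unique_type_iff]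
  intro h1
  exact h ((IsFractionRing.isAlgebraic_iff ℤ ℚ ℂ).1 h1)

theorem TA_le {μ : ℂ} (h : Transcendental ℚ μ) (μ' : ℂ) : arank (TA μ') ≤ arank (TA μ) := by
  have h1 := worst_eq FA (algInd_of h)
  rw [spec_FA] at h1
  rw [← h1, ← spec_FA]
  exact le_worst _ _

theorem TB_le {μ : ℂ} (h : Transcendental ℚ μ) (μ' : ℂ) : arank (TB μ') ≤ arank (TB μ) := by
  have h1 := worst_eq FB (algInd_of h)
  rw [spec_FB] at h1
  rw [← h1, ← spec_FB]
  exact le_worst _ _

theorem TB_three {μ : ℂ} (h : μ ≠ 0) : arank (TB μ) ≤ 3 := by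
  obtain ⟨s, hs⟩ := IsAlgClosed.exists_pow_nat_eq μ (n := 3) (by norm_num)
  have hs0 : s ≠ 0 := by
    rintro rfl
    apply h
    rw [← hs]
    norm_num
  rw [← hs]
  refine arank_le _ (N := 1) le_rfl (Rk.pow (Rk_TB hs0) 1) (by norm_num) ?_
  norm_num

theorem TB_zero {μ : ℂ} (h : Transcendental ℚ μ) : arank (TB 0) ≤ 3 :=
  (TB_le h 0).trans (TB_three (by
    rintro rfl
    exact h isAlgebraic_zero))

/-! ### conciseness -/

theorem conc_of {T : Fin 3 → Fin 3 → Fin 3 → ℂ} (h1 : TightS (Fin 3) (fun x y z => T x y z ≠ 0))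
    (h2 : Full (fun x y z => T x y z ≠ 0)) : Conc T := by
  have hf := h1.free
  obtain ⟨a1, a2, a3⟩ := h2
  refine ⟨?_, ?_, ?_⟩
  · rw [Fintype.linearIndependent_iff]
    intro g hg i
    obtain ⟨y, z, h⟩ := a1 i
    have h3 := congrFun hg (y, z)
    rw [Finset.sum_apply, Finset.sum_eq_single i] at h3
    · simpa [h] using h3
    · intro b _ hb
      have : T b y z = 0 := by
        by_contra hne
        exact hb ((hf _ _ _ _ _ _ hne h).2.2 ⟨rfl, rfl⟩)
      simp [this]
    · intro hn
      exact absurd (Finset.mem_univ _) hn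
  · rw [Fintype.linearIndependent_iff]
    intro g hg i
    obtain ⟨x, z, h⟩ := a2 i
    have h3 := congrFun hg (x, z)
    rw [Finset.sum_apply, Finset.sum_eq_single i] at h3
    · simpa [h] using h3
    · intro b _ hb
      have : T x b z = 0 := by
        by_contra hne
        exact hb ((hf _ _ _ _ _ _ hne h).2.1 ⟨rfl, rfl⟩)
      simp [this]
    · intro hn
      exact absurd (Finset.mem_univ _) hn
  · rw [Fintype.linearIndependent_iff]
    intro g hg i
    obtain ⟨x, y, h⟩ := a3 i
    have h3 := congrFun hg (x, y)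
    rw [Finset.sum_apply, Finset.sum_eq_single i] at h3
    · simpa [h] using h3
    · intro b _ hb
      have : T x y b = 0 := by
        by_contra hne
        exact hb ((hf _ _ _ _ _ _ hne h).1 ⟨rfl, rfl⟩)
      simp [this]
    · intro hn
      exact absurd (Finset.mem_univ _) hn

theorem TA_ne {μ : ℂ} (hμ : μ ≠ 0) {x y z : Fin 3} :
    TA μ x y z ≠ 0 ↔ x.val + y.val + z.val = 3 := by
  unfold TA
  split_ifs with h1 h2 <;> simp [h1, hμ]

theorem TA_tight (μ : ℂ) : TightS (Fin 3) (fun x y z => TA μ x y z ≠ 0) := by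
  refine ⟨fun x => x.val, fun x => x.val, fun x => x.val - 3, ?_, ?_, ?_, ?_⟩
  · intro a b h
    exact Fin.ext (by simpa using h)
  · intro a b h
    exact Fin.ext (by simpa using h)
  · intro a b h
    exact Fin.ext (by simpa using h)
  · intro x y z h
    have h1 : x.val + y.val + z.val = 3 := by
      by_contra h1
      apply h
      unfold TA
      rw [if_neg h1]
    have h2 : ((x.val + y.val + z.val : ℕ) : ℤ) = 3 := by rw [h1]; norm_num
    push_cast at h2
    show (x.val : ℤ) + (y.val : ℤ) + ((z.val : ℤ) - 3) = 0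
    linarith

theorem TA_conc {μ : ℂ} (hμ : μ ≠ 0) : Conc (TA μ) := by
  refine conc_of (TA_tight μ) ⟨fun x => ?_, fun x => ?_, fun x => ?_⟩
  · simp only [TA_ne hμ]
    revert x
    decide
  · simp only [TA_ne hμ]
    revert x
    decide
  · simp only [TA_ne hμ]
    revert x
    decide

theorem TC_ne {x y z : Fin 3} :
    TC x y z ≠ 0 ↔ (x.val + y.val = z.val ∧ x ≠ 2) ∨ (x = 2 ∧ y = 2 ∧ z = 0) := by
  unfold TC
  split_ifs with h1 <;> simp [h1]

theorem TC_tight : TightS (Fin 3) (fun x y z => TC x y z ≠ 0) := by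
  refine ⟨![0, 1, -2], ![0, 1, 2], ![0, -1, -2], by decide, by decide, by decide, ?_⟩
  intro x y z h
  rw [TC_ne] at h
  revert x y z
  decide

theorem TC_conc : Conc TC := by
  refine conc_of TC_tight ⟨fun x => ?_, fun x => ?_, fun x => ?_⟩
  · simp only [TC_ne]
    revert x
    decide
  · simp only [TC_ne]
    revert x
    decide
  · simp only [TC_ne]
    revert x
    decide

/-! ### the bound for subsets of the three antichains -/

/-- the larger one of two asymptotic ranks -/
noncomputable def bd (μ : ℂ) : ℝ := max (arank (TA μ)) (arank TC)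

theorem three_le (μ : ℂ) : 3 ≤ bd μ := by
  have h := le_arank TC_conc
  push_cast at h
  exact h.trans (le_max_right _ _)

theorem base {μ : ℂ} (hμ : Transcendental ℚ μ) (c : ℕ) (hc : c < 3)
    {T : Fin 3 → Fin 3 → Fin 3 → ℂ} (hT : SuppIn (Cl c) T) : arank T ≤ bd μ := by
  refine worst_le_of_generic (Cl c) (fun T' h1 h2 => ?_) hT
  interval_cases c
  · obtain ⟨μ', h3⟩ := nf_A h1 h2
    exact h3.trans ((TA_le hμ μ').trans (le_max_left _ _))
  · exact (nf_B h1 h2).trans ((TB_zero hμ).trans (three_le μ))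
  · exact (nf_C h1 h2).trans (le_max_right _ _)

/-! ### permutations -/

theorem base_fac {μ : ℂ} (hμ : Transcendental ℚ μ) (π c : ℕ) (hc : c < 3)
    {T : Fin 3 → Fin 3 → Fin 3 → ℂ} (hT : SuppIn (fun x y z => fac π c x y z = true) T) :
    arank T ≤ bd μ := by
  have h0 : ∀ {T : Fin 3 → Fin 3 → Fin 3 → ℂ}, SuppIn (fun x y z => cl c x y z = true) T →
      arank T ≤ bd μ := fun h => base hμ c hc h
  have hrot : SuppIn (fun x y z => cl c z x y = true) T → arank T ≤ bd μ := fun h =>
    (arank_rot T).trans (h0 fun x y z hn => h y z x hn)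
  match π with
  | 0 => exact h0 hT
  | 1 => exact hrot hT
  | 2 => exact (arank_swap T).trans (h0 fun x y z hn => hT y x z hn)
  | (n + 3) => exact hrot hT

theorem pf_inj (k : ℕ) : Function.Injective (pf k) := by
  match k with
  | 0 => exact fun _ _ h => h
  | 1 => exact (by decide : Function.Injective (![0, 2, 1] : Fin 3 → Fin 3))
  | 2 => exact (by decide : Function.Injective (![1, 0, 2] : Fin 3 → Fin 3))
  | 3 => exact (by decide : Function.Injective (![1, 2, 0] : Fin 3 → Fin 3))
  | 4 => exact (by decide : Function.Injective (![2, 0, 1] : Fin 3 → Fin 3))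
  | (n + 5) => exact (by decide : Function.Injective (![2, 1, 0] : Fin 3 → Fin 3))

theorem arank_perm {β : ℝ} {S : Fin 3 → Fin 3 → Fin 3 → Prop} {f g h : Fin 3 → Fin 3}
    (hf : Function.Injective f) (hg : Function.Injective g) (hh : Function.Injective h)
    (H : ∀ T : Fin 3 → Fin 3 → Fin 3 → ℂ, SuppIn S T → arank T ≤ β)
    {T : Fin 3 → Fin 3 → Fin 3 → ℂ} (hT : SuppIn (fun x y z => S (f x) (g y) (h z)) T) :
    arank T ≤ β := by
  let ef := Equiv.ofBijective f (Finite.injective_iff_bijective.1 hf)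
  let eg := Equiv.ofBijective g (Finite.injective_iff_bijective.1 hg)
  let eh := Equiv.ofBijective h (Finite.injective_iff_bijective.1 hh)
  have h1 := H (fun x y z => T (ef.symm x) (eg.symm y) (eh.symm z)) (by
    intro x y z hn
    apply hT
    have e1 : f (ef.symm x) = x := ef.apply_symm_apply x
    have e2 : g (eg.symm y) = y := eg.apply_symm_apply y
    have e3 : h (eh.symm z) = z := eh.apply_symm_apply z
    show ¬ S (f (ef.symm x)) (g (eg.symm y)) (h (eh.symm z))
    rw [e1, e2, e3]
    exact hn)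
  refine le_trans (arank_le_of_rst ?_) h1
  have h2 := Rst.comp (T' := fun x y z => T (ef.symm x) (eg.symm y) (eh.symm z)) ef eg eh
  simpa using h2

end Pool.Agent.H725.T3
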